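import Pool.Agent.H62.Ctx3

set_option autoImplicit false

namespace Pool.Agent.Results.MP_47ab97_lc.SufReg
open H62.Ctx

theorem result (n : ℕ) : ∃ G : ICG, G.WF ∧ (∀ p ∈ G.P, SUF p.1) ∧
    ∀ G' : ICG, G'.WF → (∀ p ∈ G'.P, REG n G'.V p.1) → {w | G'.Gen w} ≠ {w | G.Gen w} := by
  refine ⟨G0 (2 * n.factorial * (3 * n.factorial + 1)), G0_wf _, fun p hp => ?_, fun G' h1 h2 h => ?_⟩
  · obtain rfl : p = (S0 _, {([2], [3])}) := by simpa [G0] using hp
    exact S0_SUF _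
  · exact main n G' h1 h2 fun w => (Set.ext_iff.mp h w).trans
      ⟨gen_good, good_gen _ _ (Nat.lt_succ_self _)⟩

end Pool.Agent.Results.MP_47ab97_lc.SufReg
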